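import Pool.Agent.U115.WM.Stm

/-! # Project WM, package ABS: the abstract count -/

set_option autoImplicit false

open scoped Classical
open Matrix

namespace Pool.Agent.U694.WM

open Pool.Agent.U115.WM

theorem typ_bd {n k : ℕ} {B : Matrix (Fin n) (Fin k) ℤ} (i : Fin k) (h : 1 ≤ N B i) :
    (4 : ℤ) ^ typ B i ≤ N B i ∧ N B i < 4 ^ (typ B i + 1) := by
  obtain ⟨m, hm⟩ : ∃ m : ℕ, N B i = m := ⟨(N B i).toNat, (Int.toNat_of_nonneg (by omega)).symm⟩
  have ht : typ B i = Nat.log 4 m := by unfold typ; rw [hm, Int.toNat_natCast]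
  have hm0 : m ≠ 0 := by
    rintro rfl
    rw [hm] at h
    norm_num at h
  rw [ht, hm]
  refine ⟨?_, ?_⟩
  · exact_mod_cast Nat.pow_log_le_self 4 hm0
  · exact_mod_cast Nat.lt_pow_succ_log_self (by norm_num : 1 < 4) m

theorem typ_mono {n k : ℕ} {C₀ : ℝ} {B : Matrix (Fin n) (Fin k) ℤ} (hB : Red C₀ B) :
    Monotone (typ B) := by
  intro i j hij
  exact Nat.log_mono_right (Int.toNat_le_toNat (hB.mono hij))

theorem vol_pos {k : ℕ} (e : Fin k → ℕ) : 0 < vol e :=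
  Finset.prod_pos fun i _ => by positivity

theorem one_le_vol {k : ℕ} (e : Fin k → ℕ) : 1 ≤ vol e := by
  unfold vol
  rw [Finset.prod_pow_eq_pow_sum]
  exact one_le_pow₀ (by norm_num)

theorem le_vol {k : ℕ} (e : Fin k → ℕ) (i : Fin k) : (2 : ℝ) ^ e i ≤ vol e := by
  unfold vol
  rw [Finset.prod_pow_eq_pow_sum]
  exact pow_le_pow_right₀ (by norm_num) (Finset.single_le_sum (fun j _ => Nat.zero_le _)
    (Finset.mem_univ i))

theorem gap_pos {k : ℕ} (e : Fin k → ℕ) : 0 < gap e :=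
  Finset.prod_pos fun i _ => by positivity

theorem vol_bd {n k : ℕ} {C₀ : ℝ} (hC : 1 ≤ C₀) {B : Matrix (Fin n) (Fin k) ℤ} (hB : Red C₀ B) :
    vol (typ B) ≤ (√C₀ * 2 ^ k) * cov B ∧ cov B ≤ (√C₀ * 2 ^ k) * vol (typ B) ∧ 0 < cov B := by
  have hv2 : vol (typ B) ^ 2 = ∏ i, (4 : ℝ) ^ (typ B i) := by
    unfold vol
    rw [← Finset.prod_pow]
    refine Finset.prod_congr rfl fun i _ => ?_
    rw [← pow_mul, mul_comm, pow_mul]; norm_num
  have a1 : vol (typ B) ^ 2 ≤ ∏ i, (N B i : ℝ) := by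
    rw [hv2]
    refine Finset.prod_le_prod (fun i _ => by positivity) (fun i _ => ?_)
    exact_mod_cast (typ_bd i (hB.pos i)).1
  have a2 : ∏ i, (N B i : ℝ) ≤ 4 ^ k * vol (typ B) ^ 2 := by
    rw [hv2]
    calc ∏ i, (N B i : ℝ) ≤ ∏ i : Fin k, (4 * (4 : ℝ) ^ typ B i) := by
          refine Finset.prod_le_prod (fun i _ => ?_) (fun i _ => ?_)
          · have := hB.pos i
            exact_mod_cast (by omega : (0 : ℤ) ≤ N B i)
          · have := (typ_bd i (hB.pos i)).2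
            have h2 : N B i ≤ 4 * 4 ^ typ B i := by
              rw [pow_succ] at this
              linarith
            exact_mod_cast h2
      _ = 4 ^ k * ∏ i : Fin k, (4 : ℝ) ^ typ B i := by
          rw [Finset.prod_mul_distrib]; simp
  have hlow := hB.low
  have hupp := hB.upp
  set D : ℝ := ((Bᵀ * B).det : ℝ) with hD
  have hcov : cov B = √D := rfl
  have hC0 : 0 ≤ C₀ := by linarith
  have hv := vol_pos (typ B)
  have hD0 : 0 < D := by
    have : 0 < C₀ * D := lt_of_lt_of_le (by positivity) (a1.trans hlow)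
    exact (mul_pos_iff_of_pos_left (by linarith)).1 this
  have h2k : (1 : ℝ) ≤ 2 ^ k := one_le_pow₀ (by norm_num)
  refine ⟨?_, ?_, ?_⟩
  · have b1 : vol (typ B) ≤ √(C₀ * D) := Real.le_sqrt_of_sq_le (a1.trans hlow)
    rw [Real.sqrt_mul hC0] at b1
    rw [hcov]
    calc vol (typ B) ≤ √C₀ * √D := b1
      _ ≤ √C₀ * 2 ^ k * √D := by
          have : √C₀ * √D ≤ (√C₀ * √D) * 2 ^ k :=
            le_mul_of_one_le_right (by positivity) h2k
          calc √C₀ * √D ≤ (√C₀ * √D) * 2 ^ k := this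
            _ = √C₀ * 2 ^ k * √D := by ring
  · rw [hcov]
    have b1 : D ≤ C₀ * (4 ^ k * vol (typ B) ^ 2) :=
      hupp.trans (mul_le_mul_of_nonneg_left a2 hC0)
    have b2 : C₀ * (4 ^ k * vol (typ B) ^ 2) = (√C₀ * 2 ^ k * vol (typ B)) ^ 2 := by
      rw [mul_pow, mul_pow, Real.sq_sqrt hC0, ← pow_mul, mul_comm k 2, pow_mul]
      norm_num
      ring
    rw [b2] at b1
    exact Real.sqrt_le_iff.2 ⟨by positivity, b1⟩
  · rw [hcov]; exact Real.sqrt_pos.2 hD0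

theorem rpow_bd {K x y b : ℝ} (hK : 1 ≤ K) (hx : 0 < x) (hy : 0 < y) (h1 : x ≤ K * y)
    (h2 : y ≤ K * x) : x ^ b ≤ K ^ |b| * y ^ b := by
  have hK0 : 0 < K := by linarith
  rcases le_total 0 b with hb | hb
  · rw [abs_of_nonneg hb, ← Real.mul_rpow hK0.le hy.le]
    exact Real.rpow_le_rpow hx.le h1 hb
  · rw [abs_of_nonpos hb]
    have h3 : y / K ≤ x := by rw [div_le_iff₀ hK0]; linarith
    calc x ^ b ≤ (y / K) ^ b := Real.rpow_le_rpow_of_nonpos (by positivity) h3 hb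
      _ = K ^ (-b) * y ^ b := by
          rw [Real.div_rpow hy.le hK0.le, Real.rpow_neg hK0.le]
          field_simp

/-- the real analysis. -/
theorem ana {κ τ ρ c a b α X V M : ℝ} {n : ℕ} (hκ : 0 < κ) (hc : 0 < c)
    (ha : 0 < a) (hs : 0 < κ * b + τ * a) (h1 : κ * ρ ≤ a * α)
    (h2 : κ * n ≤ α * (κ * b + τ * a)) (hV : 1 ≤ V) (hM : 0 < M) (hX : M ^ a * V ^ b = X)
    (hy : c * V ^ τ ≤ M ^ κ) :
    V ^ n * (M ^ κ * V ^ (-τ)) ^ ρ ≤ (c ^ (a * α / κ - ρ))⁻¹ * X ^ α ∧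
      V ^ ((κ * b + τ * a) / κ) ≤ (c ^ (a / κ))⁻¹ * X := by
  have hV0 : 0 < V := by linarith
  obtain ⟨y, hyd⟩ : ∃ y, y = M ^ κ * V ^ (-τ) := ⟨_, rfl⟩
  have hy0 : 0 < y := by rw [hyd]; positivity
  have hMy : M ^ κ = y * V ^ τ := by
    rw [hyd, mul_assoc, ← Real.rpow_add hV0]; simp
  have hcy : c ≤ y := by
    rw [hMy] at hy
    exact le_of_mul_le_mul_right hy (by positivity)
  have hMa : M ^ a = y ^ (a / κ) * V ^ (τ * a / κ) := by
    have : M ^ a = (M ^ κ) ^ (a / κ) := by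
      rw [← Real.rpow_mul hM.le]; congr 1; field_simp
    rw [this, hMy, Real.mul_rpow hy0.le (by positivity), ← Real.rpow_mul hV0.le]
    congr 2
    ring
  obtain ⟨s, hsd⟩ : ∃ s, s = (κ * b + τ * a) / κ := ⟨_, rfl⟩
  have hs0 : 0 < s := by rw [hsd]; positivity
  have hXy : X = y ^ (a / κ) * V ^ s := by
    rw [← hX, hMa, mul_assoc, ← Real.rpow_add hV0]
    congr 2
    rw [hsd]; field_simp; ring
  have hX0 : 0 < X := by rw [hXy]; positivity
  have hns : (n : ℝ) ≤ s * α := by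
    rw [hsd, div_mul_eq_mul_div, le_div_iff₀ hκ]
    linarith
  refine ⟨?_, ?_⟩
  · rw [← hyd]
    have e1 : X ^ α = y ^ (a * α / κ) * V ^ (s * α) := by
      rw [hXy, Real.mul_rpow (by positivity) (by positivity), ← Real.rpow_mul hy0.le,
        ← Real.rpow_mul hV0.le]
      congr 2
      ring
    have hq : 0 ≤ a * α / κ - ρ := by
      rw [sub_nonneg, le_div_iff₀ hκ]; linarith
    have e2 : y ^ (a * α / κ) = y ^ ρ * y ^ (a * α / κ - ρ) := by
      rw [← Real.rpow_add hy0]; congr 1; ring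
    have e3 : c ^ (a * α / κ - ρ) ≤ y ^ (a * α / κ - ρ) := Real.rpow_le_rpow hc.le hcy hq
    have e4 : V ^ n ≤ V ^ (s * α) := by
      rw [← Real.rpow_natCast]
      exact Real.rpow_le_rpow_of_exponent_le hV hns
    have hcq : 0 < c ^ (a * α / κ - ρ) := by positivity
    rw [← div_eq_inv_mul, le_div_iff₀ hcq, e1, e2]
    calc V ^ n * y ^ ρ * c ^ (a * α / κ - ρ) ≤ V ^ (s * α) * y ^ ρ * y ^ (a * α / κ - ρ) := by
          gcongr
      _ = _ := by ring
  · rw [← hsd, ← div_eq_inv_mul, le_div_iff₀ (by positivity), hXy, mul_comm]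
    have : c ^ (a / κ) ≤ y ^ (a / κ) := Real.rpow_le_rpow hc.le hcy (by positivity)
    gcongr

theorem count_union {P E : Type} (S : Set P) (t : P → E) (F : Finset E) (D : ℝ)
    (hmem : ∀ p ∈ S, t p ∈ F)
    (h : ∀ e ∈ F, {p | p ∈ S ∧ t p = e}.Finite ∧ ({p | p ∈ S ∧ t p = e}.ncard : ℝ) ≤ D) :
    S.Finite ∧ (S.ncard : ℝ) ≤ F.card * D := by
  have hfin : S.Finite := by
    refine ((F.finite_toSet).biUnion (fun e he => (h e he).1)).subset ?_
    intro p hp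
    simp only [Set.mem_iUnion]
    exact ⟨t p, hmem p hp, hp, rfl⟩
  refine ⟨hfin, ?_⟩
  rw [Set.ncard_eq_toFinset_card S hfin,
    Finset.card_eq_sum_card_fiberwise (f := t) (t := F) (fun p hp => hmem p (by simpa using hp))]
  push_cast
  calc ∑ e ∈ F, ((hfin.toFinset.filter (fun p => t p = e)).card : ℝ) ≤ ∑ _e ∈ F, D := by
        refine Finset.sum_le_sum fun e he => ?_
        refine le_trans ?_ (h e he).2
        rw [Set.ncard_eq_toFinset_card _ (h e he).1]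
        refine Nat.cast_le.2 (Finset.card_le_card ?_)
        intro p hp
        simpa using hp
    _ = F.card * D := by simp

/-- the box of the coordinates. -/
theorem box {ι : Type} [Fintype ι] (M : ℝ) (hM : 0 < M) (w : ι → ℝ) (hw : ∀ α, 0 < w α) :
    ∃ F : Finset (ι → ℤ), (∀ c : ι → ℤ, (∀ α, |(c α : ℝ)| * w α ≤ M) → c ∈ F) ∧
      (F.card : ℝ) ≤ 3 ^ Fintype.card ι * ∏ α, max 1 (M / w α) := by
  refine ⟨Fintype.piFinset (fun α => Finset.Icc (-⌊M / w α⌋) ⌊M / w α⌋), ?_, ?_⟩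
  · intro c hc
    rw [Fintype.mem_piFinset]
    intro α
    have h1 : |(c α : ℝ)| ≤ M / w α := by
      rw [le_div_iff₀ (hw α)]; exact hc α
    rw [abs_le] at h1
    rw [Finset.mem_Icc]
    constructor
    · have : (-(c α) : ℤ) ≤ ⌊M / w α⌋ := by
        rw [Int.le_floor]; push_cast; linarith
      omega
    · rw [Int.le_floor]; exact h1.2
  · rw [Fintype.card_piFinset]
    push_cast
    have : (3 : ℝ) ^ Fintype.card ι * ∏ α, max 1 (M / w α) = ∏ α, (3 * max 1 (M / w α)) := by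
      rw [Finset.prod_mul_distrib]; simp
    rw [this]
    refine Finset.prod_le_prod (fun α _ => by positivity) (fun α _ => ?_)
    rw [Int.card_Icc]
    have h0 : 0 ≤ ⌊M / w α⌋ := Int.floor_nonneg.2 (by have := hw α; positivity)
    have h1 : ((⌊M / w α⌋ + 1 - -⌊M / w α⌋).toNat : ℝ) = 2 * (⌊M / w α⌋ : ℝ) + 1 := by
      have : ((⌊M / w α⌋ + 1 - -⌊M / w α⌋).toNat : ℤ) = 2 * ⌊M / w α⌋ + 1 := by
        rw [Int.toNat_of_nonneg (by omega)]; ring
      exact_mod_cast this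
    rw [h1]
    have h2 : (⌊M / w α⌋ : ℝ) ≤ M / w α := Int.floor_le _
    have h3 := le_max_left 1 (M / w α)
    have h4 := le_max_right 1 (M / w α)
    linarith

theorem aux_eq (CL V G t CA Y : ℝ) (hG : 0 < G) :
    (CL * V / G) * (t * (CA * Y * G)) = CL * t * CA * (V * Y) := by
  have := hG.ne'
  field_simp

theorem aux_le {a1 a2 b1 b2 CL V G t CA Y Z D : ℝ} (h0 : 0 ≤ b1) (h1 : a1 ≤ a2 * b1)
    (hG : 0 < G) (h2 : a2 ≤ CL * V / G) (hn : 0 ≤ CL * V / G) (h3 : b1 ≤ t * b2) (ht : 0 ≤ t)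
    (h4 : b2 ≤ CA * Y * G) (h5 : V * Y ≤ Z) (h6 : 0 ≤ CL * t * CA)
    (h7 : CL * t * CA * Z = D) : a1 ≤ D := by
  calc a1 ≤ a2 * b1 := h1
    _ ≤ (CL * V / G) * b1 := mul_le_mul_of_nonneg_right h2 h0
    _ ≤ (CL * V / G) * (t * b2) := mul_le_mul_of_nonneg_left h3 hn
    _ ≤ (CL * V / G) * (t * (CA * Y * G)) :=
        mul_le_mul_of_nonneg_left (mul_le_mul_of_nonneg_left h4 ht) hn
    _ = CL * t * CA * (V * Y) := aux_eq _ _ _ _ _ _ hG
    _ ≤ CL * t * CA * Z := mul_le_mul_of_nonneg_left h5 h6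
    _ = D := h7

theorem t_ABS : S_ABS := by
  intro hCNTL hCOV n k ι _ w ND κ τ ρ C₀ C₁ P Λ H cf hκ hρ hC₀ hC₁ hw hND hred hcoord hinj
    hA hB a b α ha hs h1 h2
  obtain ⟨CL, hCL1, hCL⟩ := hCNTL n k
  obtain ⟨CA', hCA'⟩ := hA
  obtain ⟨c, hc, hcb⟩ := hB
  -- a chosen reduced basis
  choose bs hbs1 hbs2 using hred
  let bas : Set (Fin n → ℤ) → Matrix (Fin n) (Fin k) ℤ := fun L =>
    if h : ∃ B : Matrix (Fin n) (Fin k) ℤ, Red C₀ B ∧ lat B = L then h.choose else 0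
  have hbas : ∀ p, Red C₀ (bas (Λ p)) ∧ lat (bas (Λ p)) = Λ p := by
    intro p
    have hex : ∃ B : Matrix (Fin n) (Fin k) ℤ, Red C₀ B ∧ lat B = Λ p := ⟨bs p, hbs1 p, hbs2 p⟩
    have : bas (Λ p) = hex.choose := dif_pos hex
    rw [this]
    exact hex.choose_spec
  obtain ⟨K, hKd⟩ : ∃ K, K = √C₀ * 2 ^ k := ⟨_, rfl⟩
  have hK : 1 ≤ K := by
    rw [hKd]
    have e1 : 1 ≤ √C₀ := Real.one_le_sqrt.2 hC₀
    have e2 : (1 : ℝ) ≤ 2 ^ k := one_le_pow₀ (by norm_num)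
    nlinarith
  have hK0 : 0 < K := by linarith
  obtain ⟨A, hAd⟩ : ∃ A, A = C₁ ^ a * K ^ |b| := ⟨_, rfl⟩
  have hC₁0 : 0 < C₁ := by linarith
  have hA0 : 0 < A := by rw [hAd]; positivity
  have hα : 0 ≤ α := by
    have : 0 ≤ a * α := le_trans (by positivity) h1
    exact nonneg_of_mul_nonneg_right this ha
  obtain ⟨s, hsd⟩ : ∃ s, s = (κ * b + τ * a) / κ := ⟨_, rfl⟩
  have hs0 : 0 < s := by rw [hsd]; positivity
  obtain ⟨G, hG⟩ : ∃ G, G = (c ^ (a / κ))⁻¹ * A := ⟨_, rfl⟩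
  have hG0 : 0 < G := by rw [hG]; positivity
  have hlog2 : 0 < Real.log 2 := Real.log_pos (by norm_num)
  obtain ⟨C3, hC3⟩ : ∃ C3, C3 = (|Real.log G| + 1) / (s * Real.log 2) := ⟨_, rfl⟩
  have hC30 : 0 < C3 := by rw [hC3]; positivity
  obtain ⟨CA, hCAd⟩ : ∃ CA, CA = max CA' 1 := ⟨_, rfl⟩
  have hCA0 : 0 < CA := by rw [hCAd]; exact lt_of_lt_of_le one_pos (le_max_right _ _)
  have hCA : ∀ (e : Fin k → ℕ) (M : ℝ), Monotone e → 0 < M → ND e M →
      ∏ α, max 1 (M / w e α) ≤ CA * (M ^ κ * vol e ^ (-τ)) ^ ρ * gap e := by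
    intro e M he hM hnd
    refine (hCA' e M he hM hnd).trans ?_
    have hv := vol_pos e
    have hg := gap_pos e
    have : CA' ≤ CA := by rw [hCAd]; exact le_max_left _ _
    gcongr
  obtain ⟨D, hDd⟩ : ∃ D, D = CL * 3 ^ Fintype.card ι * CA *
    ((c ^ (a * α / κ - ρ))⁻¹ * A ^ α) := ⟨_, rfl⟩
  have hD0 : 0 < D := by rw [hDd]; positivity
  refine ⟨(C3 + 1) ^ k * D, fun T hT => ?_⟩
  have hT0 : 0 < T := by linarith
  have hlT : 0 ≤ Real.log T := Real.log_nonneg hT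
  obtain ⟨S, hS⟩ : ∃ S : Set P, S = {p : P | ∃ (B : Matrix (Fin n) (Fin k) ℤ) (h : ℝ), Inj B ∧
    lat B = Λ p ∧ 0 < h ∧ H p h ∧ h ^ a * cov B ^ b ≤ T} := ⟨_, rfl⟩
  rw [← hS]
  -- the size of the form for the type `e`
  let Me : (Fin k → ℕ) → ℝ := fun e => (A * T * vol e ^ (-b)) ^ (1 / a)
  have hMe0 : ∀ e, 0 < Me e := by
    intro e
    have := vol_pos e
    show 0 < (A * T * vol e ^ (-b)) ^ (1 / a)
    positivity
  have hMea : ∀ e, Me e ^ a = A * T * vol e ^ (-b) := by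
    intro e
    have := vol_pos e
    show ((A * T * vol e ^ (-b)) ^ (1 / a)) ^ a = _
    rw [← Real.rpow_mul (by positivity), one_div, inv_mul_cancel₀ ha.ne', Real.rpow_one]
  have hMeX : ∀ e, Me e ^ a * vol e ^ b = A * T := by
    intro e
    rw [hMea, mul_assoc, ← Real.rpow_add (vol_pos e)]
    simp
  -- the facts on a point
  have hfact : ∀ p ∈ S, Monotone (typ (bas (Λ p))) ∧
      ND (typ (bas (Λ p))) (Me (typ (bas (Λ p)))) ∧
      ∀ α, |(cf (bas (Λ p)) p α : ℝ)| * w (typ (bas (Λ p))) α ≤ Me (typ (bas (Λ p))) := by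
    intro p hp
    rw [hS] at hp
    obtain ⟨B, h, hBi, hBl, hh, hHp, hle⟩ := hp
    obtain ⟨r1, r2⟩ := hbas p
    have hcov : cov B = cov (bas (Λ p)) :=
      (hCOV.1 n k B (bas (Λ p)) hBi r1.inj (hBl.trans r2.symm)).2
    obtain ⟨v1, v2, v3⟩ := vol_bd hC₀ r1
    rw [← hKd] at v1 v2
    have hvp := vol_pos (typ (bas (Λ p)))
    have e1 : vol (typ (bas (Λ p))) ^ b ≤ K ^ |b| * cov B ^ b := by
      rw [hcov]
      exact rpow_bd hK hvp v3 v1 v2
    obtain ⟨q1, q2⟩ := hcoord p h (bas (Λ p)) hh hHp r1 r2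
    have e2 : C₁ * h ≤ Me (typ (bas (Λ p))) := by
      rw [← Real.rpow_le_rpow_iff (by positivity) (hMe0 _).le ha, hMea]
      have e3 : (C₁ * h) ^ a * vol (typ (bas (Λ p))) ^ b ≤ A * T := by
        rw [Real.mul_rpow hC₁0.le hh.le, hAd]
        calc C₁ ^ a * h ^ a * vol (typ (bas (Λ p))) ^ b ≤ C₁ ^ a * h ^ a * (K ^ |b| * cov B ^ b) := by
              gcongr
          _ = C₁ ^ a * K ^ |b| * (h ^ a * cov B ^ b) := by ring
          _ ≤ C₁ ^ a * K ^ |b| * T := by gcongr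
      rw [Real.rpow_neg hvp.le, ← div_eq_mul_inv, le_div_iff₀ (by positivity)]
      exact e3
    refine ⟨typ_mono r1, hND _ _ _ q2 e2, fun α => (q1 α).trans e2⟩
  -- the analysis for a type
  have hana : ∀ e, Monotone e → ND e (Me e) →
      vol e ^ n * (Me e ^ κ * vol e ^ (-τ)) ^ ρ ≤ (c ^ (a * α / κ - ρ))⁻¹ * (A * T) ^ α ∧
      vol e ^ s ≤ (c ^ (a / κ))⁻¹ * (A * T) := by
    intro e he hnd
    have := ana (n := n) (b := b) (ρ := ρ) (α := α) (X := A * T) hκ hc ha hs h1 h2 (one_le_vol e)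
      (hMe0 e) (hMeX e) (hcb e (Me e) he (hMe0 e) hnd)
    rw [hsd]
    exact this
  let R : ℕ := ⌊C3 * (1 + Real.log T)⌋₊
  let F : Finset (Fin k → ℕ) := Fintype.piFinset (fun _ => Finset.range (R + 1))
  have hF : ∀ p ∈ S, typ (bas (Λ p)) ∈ F := by
    intro p hp
    obtain ⟨m1, m2, -⟩ := hfact p hp
    obtain ⟨-, w2⟩ := hana _ m1 m2
    rw [Fintype.mem_piFinset]
    intro i
    rw [Finset.mem_range, Nat.lt_succ_iff]
    apply Nat.le_floor
    have g1 : ((2 : ℝ) ^ typ (bas (Λ p)) i) ^ s ≤ G * T := by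
      calc ((2 : ℝ) ^ typ (bas (Λ p)) i) ^ s ≤ vol (typ (bas (Λ p))) ^ s :=
            Real.rpow_le_rpow (by positivity) (le_vol _ i) hs0.le
        _ ≤ (c ^ (a / κ))⁻¹ * (A * T) := w2
        _ = G * T := by rw [hG]; ring
    have g2 := Real.log_le_log (by positivity) g1
    rw [Real.log_rpow (by positivity), Real.log_pow, Real.log_mul hG0.ne' hT0.ne'] at g2
    rw [hC3, div_mul_eq_mul_div, le_div_iff₀ (by positivity)]
    have g3 := le_abs_self (Real.log G)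
    have g4 := abs_nonneg (Real.log G)
    nlinarith
  have hfib : ∀ e ∈ F, {p | p ∈ S ∧ typ (bas (Λ p)) = e}.Finite ∧
      ({p | p ∈ S ∧ typ (bas (Λ p)) = e}.ncard : ℝ) ≤ D * T ^ α := by
    intro e _
    rcases Set.eq_empty_or_nonempty {p | p ∈ S ∧ typ (bas (Λ p)) = e} with hemp | ⟨p0, hp0, hp0e⟩
    · rw [hemp]
      refine ⟨Set.finite_empty, ?_⟩
      rw [Set.ncard_empty]
      push_cast
      positivity
    obtain ⟨m1, m2, -⟩ := hfact p0 hp0
    rw [hp0e] at m1 m2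
    obtain ⟨w1, -⟩ := hana e m1 m2
    have hv := vol_pos e
    have hg := gap_pos e
    -- the lattices
    let LL : Set (Set (Fin n → ℤ)) := Λ '' {p | p ∈ S ∧ typ (bas (Λ p)) = e}
    have hLLc : ∀ 𝓛 : Finset (Set (Fin n → ℤ)), (𝓛 : Set (Set (Fin n → ℤ))) ⊆ LL →
        (𝓛.card : ℝ) ≤ CL * vol e ^ n / gap e := by
      intro 𝓛 h𝓛
      rw [le_div_iff₀ hg]
      apply hCL e m1 𝓛
      intro L hL
      obtain ⟨p, ⟨hp, hpe⟩, rfl⟩ := h𝓛 hL
      obtain ⟨r1, r2⟩ := hbas p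
      refine ⟨bas (Λ p), r1.inj, r2, fun i => ?_⟩
      rw [← hpe]
      exact (typ_bd i (r1.pos i)).2
    have hLLf : LL.Finite := by
      by_contra hinf
      obtain ⟨t, ht1, ht2⟩ := Set.Infinite.exists_subset_card_eq hinf
        (⌊CL * vol e ^ n / gap e⌋₊ + 1)
      have h3 := hLLc t ht1
      rw [ht2] at h3
      have h4 := Nat.lt_floor_add_one (CL * vol e ^ n / gap e)
      push_cast at h3
      linarith
    obtain ⟨Bx, hBx1, hBx2⟩ := box (Me e) (hMe0 e) (w e) (hw e)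
    let f : P → Set (Fin n → ℤ) × (ι → ℤ) := fun p => (Λ p, cf (bas (Λ p)) p)
    have hmaps : ∀ p ∈ {p | p ∈ S ∧ typ (bas (Λ p)) = e},
        f p ∈ ((hLLf.toFinset ×ˢ Bx : Finset _) : Set (Set (Fin n → ℤ) × (ι → ℤ))) := by
      rintro p ⟨hp, hpe⟩
      rw [Finset.mem_coe, Finset.mem_product]
      refine ⟨?_, ?_⟩
      · rw [Set.Finite.mem_toFinset]
        exact ⟨p, ⟨hp, hpe⟩, rfl⟩
      · apply hBx1
        obtain ⟨-, -, m3⟩ := hfact p hp
        rw [hpe] at m3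
        exact m3
    have hfinj : Set.InjOn f {p | p ∈ S ∧ typ (bas (Λ p)) = e} := by
      rintro p ⟨hp, hpe⟩ p' ⟨hp', hpe'⟩ hpp
      have q1 : Λ p = Λ p' := congrArg Prod.fst hpp
      have q2 : cf (bas (Λ p)) p = cf (bas (Λ p')) p' := congrArg Prod.snd hpp
      rw [← q1] at q2
      obtain ⟨r1, r2⟩ := hbas p
      exact hinj p p' (bas (Λ p)) r1 r2 (r2.trans q1) q2
    have hff : {p | p ∈ S ∧ typ (bas (Λ p)) = e}.Finite :=
      Set.Finite.of_injOn hmaps hfinj (Finset.finite_toSet _)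
    refine ⟨hff, ?_⟩
    have hcard := Set.ncard_le_ncard_of_injOn f hmaps hfinj (Finset.finite_toSet _)
    rw [Set.ncard_coe_finset, Finset.card_product] at hcard
    have hcard' : ({p | p ∈ S ∧ typ (bas (Λ p)) = e}.ncard : ℝ) ≤
        (hLLf.toFinset.card : ℝ) * (Bx.card : ℝ) := by exact_mod_cast hcard
    have hL1 := hLLc hLLf.toFinset (by simp)
    refine aux_le (b2 := ∏ α, max 1 (Me e / w e α)) (Y := (Me e ^ κ * vol e ^ (-τ)) ^ ρ)
      (Nat.cast_nonneg _) hcard' hg hL1 ?_ hBx2 (by positivity) (hCA e (Me e) m1 (hMe0 e) m2) w1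
      ?_ ?_
    · positivity
    · positivity
    · rw [hDd, Real.mul_rpow hA0.le hT0.le]; ring
  obtain ⟨t1, t2⟩ := count_union S (fun p => typ (bas (Λ p))) F (D * T ^ α) hF hfib
  refine ⟨t1, t2.trans ?_⟩
  have hFc : (F.card : ℝ) ≤ ((C3 + 1) * (1 + Real.log T)) ^ k := by
    have : F.card = (R + 1) ^ k := by
      show (Fintype.piFinset (fun _ : Fin k => Finset.range (R + 1))).card = _
      rw [Fintype.card_piFinset]; simp
    rw [this]
    push_cast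
    have hR : (R : ℝ) ≤ C3 * (1 + Real.log T) := Nat.floor_le (by positivity)
    refine pow_le_pow_left₀ (by positivity) ?_ k
    nlinarith
  have hDT : 0 ≤ D * T ^ α := by positivity
  calc (F.card : ℝ) * (D * T ^ α) ≤ ((C3 + 1) * (1 + Real.log T)) ^ k * (D * T ^ α) :=
        mul_le_mul_of_nonneg_right hFc hDT
    _ = (C3 + 1) ^ k * D * T ^ α * (1 + Real.log T) ^ k := by
        rw [mul_pow]; ring

end Pool.Agent.U694.WM
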